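import Mathlib

set_option autoImplicit false

/-! Iterated divided differences of an integral polynomial at zeros modulo `p`. -/

namespace Pool.Agent.Helper827_pc

open Polynomial Finset

/-- `f` has degree at most `K` and the coefficient `a` at `X ^ K`, and the coefficients at `X ^ k`, `k < K`,
are at least `-H D ^ (K - 1 - k)` and at most `G D ^ (K - k)`. -/
structure Bd (K : ℕ) (a H G : ℤ) (D : ℕ) (f : ℤ[X]) : Prop where
  deg : f.natDegree ≤ K
  top : f.coeff K = a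
  low : ∀ k < K, -(H * (D : ℤ) ^ (K - 1 - k)) ≤ f.coeff k
  upp : ∀ k < K, f.coeff k ≤ G * (D : ℤ) ^ (K - k)

/-- One step. -/
lemma step {K : ℕ} {a H G : ℤ} {D : ℕ} {f : ℤ[X]} (hf : Bd (K + 1) a H G D f) (ha : 0 < a)
    (hH : 0 ≤ H) (hG : 0 ≤ G) (d : ℕ) (hd : d ≤ D) :
    ∃ g : ℤ[X], Bd K a (H * (K + 1)) (a + G * (K + 1)) D g ∧
      f = C (f.eval (d : ℤ)) + (X - C (d : ℤ)) * g := by
  have hdeg : f.natDegree = K + 1 := by
    apply le_antisymm hf.deg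
    apply le_natDegree_of_ne_zero
    rw [hf.top]
    exact ha.ne'
  have hd0 : (0 : ℤ) ≤ d := Int.natCast_nonneg d
  have hD0 : (0 : ℤ) ≤ D := Int.natCast_nonneg D
  have hdD : (d : ℤ) ≤ D := by exact_mod_cast hd
  refine ⟨f /ₘ (X - C (d : ℤ)), ⟨?_, ?_, ?_, ?_⟩, ?_⟩
  · rw [natDegree_divByMonic _ (monic_X_sub_C _), hdeg, natDegree_X_sub_C]
    simp
  · rw [coeff_divByMonic_X_sub_C, hdeg]
    simp [hf.top]
  · intro l hl
    rw [coeff_divByMonic_X_sub_C, hdeg, sum_Icc_succ_top (by omega)]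
    have h1 : ∀ i ∈ Icc (l + 1) K, -(H * (D : ℤ) ^ (K - 1 - l)) ≤
        (d : ℤ) ^ (i - (l + 1)) * f.coeff i := by
      intro i hi
      rw [mem_Icc] at hi
      have h2 := hf.low i (by omega)
      have h3 : (0 : ℤ) ≤ (d : ℤ) ^ (i - (l + 1)) := pow_nonneg hd0 _
      have h4 : (d : ℤ) ^ (i - (l + 1)) ≤ (D : ℤ) ^ (i - (l + 1)) := pow_le_pow_left₀ hd0 hdD _
      have h5 : (0 : ℤ) ≤ H * (D : ℤ) ^ (K + 1 - 1 - i) := mul_nonneg hH (pow_nonneg hD0 _)
      have h6 : (D : ℤ) ^ (K - 1 - l) = (D : ℤ) ^ (i - (l + 1)) * (D : ℤ) ^ (K + 1 - 1 - i) := by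
        rw [← pow_add]
        congr 1
        omega
      calc -(H * (D : ℤ) ^ (K - 1 - l)) =
            -((D : ℤ) ^ (i - (l + 1)) * (H * (D : ℤ) ^ (K + 1 - 1 - i))) := by rw [h6]; ring
        _ ≤ -((d : ℤ) ^ (i - (l + 1)) * (H * (D : ℤ) ^ (K + 1 - 1 - i))) :=
            neg_le_neg (mul_le_mul_of_nonneg_right h4 h5)
        _ = (d : ℤ) ^ (i - (l + 1)) * -(H * (D : ℤ) ^ (K + 1 - 1 - i)) := by ring
        _ ≤ _ := mul_le_mul_of_nonneg_left h2 h3
    have h7 := Finset.card_nsmul_le_sum (Icc (l + 1) K) _ _ h1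
    rw [Nat.card_Icc, nsmul_eq_mul] at h7
    have h8 : (0 : ℤ) ≤ (d : ℤ) ^ (K + 1 - (l + 1)) * f.coeff (K + 1) := by
      rw [hf.top]
      exact mul_nonneg (pow_nonneg hd0 _) ha.le
    have h9 : ((K + 1 - (l + 1) : ℕ) : ℤ) ≤ K + 1 := by
      have : K + 1 - (l + 1) ≤ K + 1 := Nat.sub_le _ _
      exact_mod_cast this
    have h10 : (0 : ℤ) ≤ H * (D : ℤ) ^ (K - 1 - l) := mul_nonneg hH (pow_nonneg hD0 _)
    have h11 := mul_le_mul_of_nonneg_right h9 h10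
    have h12 : H * (K + 1) * (D : ℤ) ^ (K - 1 - l) = (K + 1) * (H * (D : ℤ) ^ (K - 1 - l)) := by ring
    rw [h12]
    linarith
  · intro l hl
    rw [coeff_divByMonic_X_sub_C, hdeg, sum_Icc_succ_top (by omega)]
    have h1 : ∀ i ∈ Icc (l + 1) K, (d : ℤ) ^ (i - (l + 1)) * f.coeff i ≤ G * (D : ℤ) ^ (K - l) := by
      intro i hi
      rw [mem_Icc] at hi
      have h2 := hf.upp i (by omega)
      have h3 : (0 : ℤ) ≤ (d : ℤ) ^ (i - (l + 1)) := pow_nonneg hd0 _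
      have h4 : (d : ℤ) ^ (i - (l + 1)) ≤ (D : ℤ) ^ (i - (l + 1)) := pow_le_pow_left₀ hd0 hdD _
      have h5 : (0 : ℤ) ≤ G * (D : ℤ) ^ (K + 1 - i) := mul_nonneg hG (pow_nonneg hD0 _)
      have h6 : (D : ℤ) ^ (K - l) = (D : ℤ) ^ (i - (l + 1)) * (D : ℤ) ^ (K + 1 - i) := by
        rw [← pow_add]
        congr 1
        omega
      calc (d : ℤ) ^ (i - (l + 1)) * f.coeff i
          ≤ (d : ℤ) ^ (i - (l + 1)) * (G * (D : ℤ) ^ (K + 1 - i)) := mul_le_mul_of_nonneg_left h2 h3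
        _ ≤ (D : ℤ) ^ (i - (l + 1)) * (G * (D : ℤ) ^ (K + 1 - i)) := mul_le_mul_of_nonneg_right h4 h5
        _ = _ := by rw [h6]; ring
    have h7 := Finset.sum_le_card_nsmul (Icc (l + 1) K) _ _ h1
    rw [Nat.card_Icc, nsmul_eq_mul] at h7
    have h8 : (d : ℤ) ^ (K + 1 - (l + 1)) * f.coeff (K + 1) ≤ a * (D : ℤ) ^ (K - l) := by
      rw [hf.top, Nat.add_sub_add_right, mul_comm]
      exact mul_le_mul_of_nonneg_left (pow_le_pow_left₀ hd0 hdD _) ha.le
    have h9 : ((K + 1 - (l + 1) : ℕ) : ℤ) ≤ K + 1 := by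
      have : K + 1 - (l + 1) ≤ K + 1 := Nat.sub_le _ _
      exact_mod_cast this
    have h10 : (0 : ℤ) ≤ G * (D : ℤ) ^ (K - l) := mul_nonneg hG (pow_nonneg hD0 _)
    have h11 := mul_le_mul_of_nonneg_right h9 h10
    have h12 : (a + G * (K + 1)) * (D : ℤ) ^ (K - l) =
        a * (D : ℤ) ^ (K - l) + (K + 1) * (G * (D : ℤ) ^ (K - l)) := by ring
    rw [h12]
    linarith
  · have h := modByMonic_add_div f (X - C (d : ℤ))
    rw [modByMonic_X_sub_C_eq_C_eval] at h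
    exact h.symm

/-- Iteration. -/
lemma iter : ∀ (j K : ℕ) (a H G : ℤ), 0 < a → 0 ≤ H → 0 ≤ G → j ≤ K →
    ∃ H' G' : ℤ, 0 ≤ H' ∧ 0 ≤ G' ∧ ∀ (p : ℕ), p.Prime → ∀ D : ℕ, D < p → ∀ S : Finset ℕ,
      S.card = j → (∀ d ∈ S, d < D) → ∀ f : ℤ[X], Bd K a H G D f → (p : ℤ) ∣ f.eval (D : ℤ) →
      (∀ d ∈ S, (p : ℤ) ∣ f.eval (d : ℤ)) →
      ∃ g : ℤ[X], Bd (K - j) a H' G' D g ∧ (p : ℤ) ∣ g.eval (D : ℤ) := by
  intro j
  induction j with
  | zero =>
    intro K a H G ha hH hG _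
    exact ⟨H, G, hH, hG, fun p _ D _ S _ _ f hf hD _ => ⟨f, hf, hD⟩⟩
  | succ j ih =>
    intro K a H G ha hH hG hj
    obtain ⟨K₁, rfl⟩ : ∃ K₁, K = K₁ + 1 := ⟨K - 1, by omega⟩
    obtain ⟨H', G', hH', hG', h⟩ := ih K₁ a (H * (K₁ + 1)) (a + G * (K₁ + 1)) ha
      (by positivity) (by positivity) (by omega)
    refine ⟨H', G', hH', hG', ?_⟩
    intro p hp D hDp S hS hSD f hf hfD hfS
    obtain ⟨d, hd⟩ : S.Nonempty := by
      rw [← card_pos]
      omega
    obtain ⟨g, hg, hfg⟩ := step hf ha hH hG d (hSD d hd).le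
    have hpr : Prime (p : ℤ) := Nat.prime_iff_prime_int.1 hp
    have h1 : ∀ e : ℕ, e < p → e ≠ d → (p : ℤ) ∣ f.eval (e : ℤ) → (p : ℤ) ∣ g.eval (e : ℤ) := by
      intro e hep hed hfe
      have h2 : f.eval (e : ℤ) = f.eval (d : ℤ) + ((e : ℤ) - d) * g.eval (e : ℤ) := by
        conv_lhs => rw [hfg]
        simp
      rw [h2] at hfe
      have h3 := (Int.dvd_add_right (hfS d hd)).1 hfe
      refine (hpr.dvd_or_dvd h3).resolve_left ?_
      intro h4
      have h5 : (e : ℤ) - d = 0 := by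
        apply Int.eq_zero_of_abs_lt_dvd h4
        have h6 := hSD d hd
        rw [abs_lt]
        omega
      omega
    have h7 : (S.erase d).card = j := by
      rw [card_erase_of_mem hd, hS]
      rfl
    obtain ⟨g', hg', hg'D⟩ := h p hp D hDp (S.erase d) h7
      (fun e he => hSD e (mem_of_mem_erase he)) g hg
      (h1 D hDp (by have := hSD d hd; omega) hfD)
      (fun e he => h1 e (by have := hSD e (mem_of_mem_erase he); omega) (ne_of_mem_erase he)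
        (hfS e (mem_of_mem_erase he)))
    refine ⟨g', ?_, hg'D⟩
    have h8 : K₁ + 1 - (j + 1) = K₁ - j := by omega
    rw [h8]
    exact hg'

/-- The value at `D`. -/
lemma val {K : ℕ} {a H G : ℤ} {D : ℕ} {f : ℤ[X]} (hf : Bd (K + 1) a H G D f) :
    a * (D : ℤ) ^ (K + 1) - (K + 1) * (H * (D : ℤ) ^ K) ≤ f.eval (D : ℤ) ∧
      f.eval (D : ℤ) ≤ (a + (K + 1) * G) * (D : ℤ) ^ (K + 1) := by
  have hD0 : (0 : ℤ) ≤ D := Int.natCast_nonneg D
  have h0 : f.eval (D : ℤ) = ∑ k ∈ range (K + 1), f.coeff k * (D : ℤ) ^ k + a * (D : ℤ) ^ (K + 1) := by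
    rw [eval_eq_sum_range' (Nat.lt_succ_of_le hf.deg), sum_range_succ, hf.top]
  rw [h0]
  constructor
  · have h1 : ∀ k ∈ range (K + 1), -(H * (D : ℤ) ^ K) ≤ f.coeff k * (D : ℤ) ^ k := by
      intro k hk
      rw [mem_range] at hk
      have h2 := mul_le_mul_of_nonneg_right (hf.low k hk) (pow_nonneg hD0 k)
      have h3 : (D : ℤ) ^ K = (D : ℤ) ^ (K + 1 - 1 - k) * (D : ℤ) ^ k := by
        rw [← pow_add]
        congr 1
        omega
      rw [h3]
      linarith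
    have h4 := Finset.card_nsmul_le_sum (range (K + 1)) _ _ h1
    rw [card_range, nsmul_eq_mul] at h4
    push_cast at h4
    linarith
  · have h1 : ∀ k ∈ range (K + 1), f.coeff k * (D : ℤ) ^ k ≤ G * (D : ℤ) ^ (K + 1) := by
      intro k hk
      rw [mem_range] at hk
      have h2 := mul_le_mul_of_nonneg_right (hf.upp k hk) (pow_nonneg hD0 k)
      have h3 : (D : ℤ) ^ (K + 1) = (D : ℤ) ^ (K + 1 - k) * (D : ℤ) ^ k := by
        rw [← pow_add]
        congr 1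
        omega
      rw [h3]
      linarith
    have h4 := Finset.sum_le_card_nsmul (range (K + 1)) _ _ h1
    rw [card_range, nsmul_eq_mul] at h4
    push_cast at h4
    linarith

/-- **The gap lemma.** `j + 1` zeros of `I` modulo `p`, where `j < deg I`: the largest zero is bounded or
at least of the order of magnitude `p ^ (1 / (deg I - j))`. -/
theorem gap (I : ℤ[X]) (hI : I ≠ 0) (j : ℕ) (hj : j < I.natDegree) :
    ∃ B C : ℕ, ∀ p : ℕ, p.Prime → ∀ D : ℕ, D < p → ∀ S : Finset ℕ, S.card = j →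
      (∀ d ∈ S, d < D) → (p : ℤ) ∣ I.eval (D : ℤ) → (∀ d ∈ S, (p : ℤ) ∣ I.eval (d : ℤ)) →
      D ≤ B ∨ p ≤ C * D ^ (I.natDegree - j) := by
  wlog hpos : 0 < I.leadingCoeff generalizing I
  · obtain ⟨B, C, h⟩ := this (-I) (neg_ne_zero.2 hI) (by rwa [natDegree_neg]) (by
      rw [leadingCoeff_neg]
      have : I.leadingCoeff ≠ 0 := leadingCoeff_ne_zero.2 hI
      omega)
    refine ⟨B, C, fun p hp D hDp S hS hSD hD hd => ?_⟩
    have := h p hp D hDp S hS hSD (by rw [eval_neg]; exact (dvd_neg).2 hD)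
      (fun d hdS => by rw [eval_neg]; exact (dvd_neg).2 (hd d hdS))
    rwa [natDegree_neg] at this
  set K := I.natDegree with hK
  set H : ℤ := ∑ k ∈ range (K + 1), |I.coeff k| with hH
  have hH0 : 0 ≤ H := sum_nonneg fun _ _ => abs_nonneg _
  have hcoeff : ∀ k < K, |I.coeff k| ≤ H := fun k hk =>
    single_le_sum (f := fun k => |I.coeff k|) (fun _ _ => abs_nonneg _) (mem_range.2 (by omega))
  obtain ⟨H', G', hH', hG', h⟩ := iter j K I.leadingCoeff H H hpos hH0 hH0 hj.le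
  obtain ⟨L, hL⟩ : ∃ L, K - j = L + 1 := ⟨K - j - 1, by omega⟩
  refine ⟨((L + 1) * H').toNat, (I.leadingCoeff + (L + 1) * G').toNat, ?_⟩
  intro p hp D hDp S hS hSD hD hd
  rcases Nat.eq_zero_or_pos D with h0 | h0
  · left
    omega
  have hD1 : (1 : ℤ) ≤ D := by exact_mod_cast h0
  have hBd : Bd K I.leadingCoeff H H D I := by
    refine ⟨le_rfl, rfl, fun k hk => ?_, fun k hk => ?_⟩
    · have h1 := (abs_le.1 (hcoeff k hk)).1
      have h2 : (1 : ℤ) ≤ (D : ℤ) ^ (K - 1 - k) := one_le_pow₀ hD1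
      nlinarith
    · have h1 := (abs_le.1 (hcoeff k hk)).2
      have h2 : (1 : ℤ) ≤ (D : ℤ) ^ (K - k) := one_le_pow₀ hD1
      nlinarith
  obtain ⟨g, hg, hgD⟩ := h p hp D hDp S hS hSD I hBd hD hd
  rw [hL] at hg ⊢
  obtain ⟨h3, h4⟩ := val hg
  by_cases hDB : D ≤ ((L + 1) * H').toNat
  · exact Or.inl hDB
  · right
    have h5 : (L + 1) * H' < D := by
      have := Int.self_le_toNat ((L + 1) * H')
      omega
    have h6 : (0 : ℤ) < (D : ℤ) ^ L := by positivity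
    have h7 : (0 : ℤ) < g.eval (D : ℤ) := by
      have h8 : (D : ℤ) ^ (L + 1) = D * (D : ℤ) ^ L := by ring
      have h9 : (L + 1) * (H' * (D : ℤ) ^ L) < D * (D : ℤ) ^ L := by
        have := mul_lt_mul_of_pos_right h5 h6
        linarith
      have h10 : (D : ℤ) * (D : ℤ) ^ L ≤ I.leadingCoeff * (D * (D : ℤ) ^ L) := by
        have h11 : (0 : ℤ) < D * (D : ℤ) ^ L := by positivity
        nlinarith
      rw [h8] at h3
      linarith
    have h12 := Int.le_of_dvd h7 hgD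
    have h13 : ((I.leadingCoeff + (L + 1) * G').toNat : ℤ) = I.leadingCoeff + (L + 1) * G' :=
      Int.toNat_of_nonneg (by positivity)
    have h14 : (p : ℤ) ≤ (((I.leadingCoeff + (L + 1) * G').toNat * D ^ (L + 1) : ℕ) : ℤ) := by
      push_cast
      rw [h13]
      linarith
    exact_mod_cast h14

end Pool.Agent.Helper827_pc
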